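import Pool.Agent.helper19.QP.SpecV
import Pool.Agent.helper7.IG.Basic
import Pool.Agent.helper12.PE.Err
import Pool.Agent.helper72.LQ.PS1

/-!
# Row qp:UHM (MP_ebc808_nt): the Lambert series `UU` is a root of `X^2 + X = D(q) + D(q^3)`
-/

set_option autoImplicit false

open Finset

noncomputable section

namespace Pool.Agent.QP

open Pool.Agent.helper7.IG (kk LL sig DDk MM im2 ps Vx Nb Frame)
open Pool.Agent.LQ (FF DD)

/-- the number of the divisors prime to 6, modulo 2 -/
def UHM_u (n : ℕ) : ZMod 2 := ((#{m ∈ n.divisors | m.Coprime 6} : ℕ) : ZMod 2)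

theorem UHM_even (n : ℕ) : UHM_u (2 * n) = UHM_u n := by
  unfold UHM_u
  rcases Nat.eq_zero_or_pos n with rfl | hn
  · rfl
  congr 2
  ext d
  simp only [mem_filter, Nat.mem_divisors]
  constructor
  · rintro ⟨⟨h1, -⟩, h3⟩
    have h4 : d.Coprime 2 := h3.coprime_dvd_right (by norm_num)
    exact ⟨⟨h4.dvd_of_dvd_mul_left h1, hn.ne'⟩, h3⟩
  · rintro ⟨⟨h1, -⟩, h3⟩
    exact ⟨⟨h1.mul_left 2, by omega⟩, h3⟩

theorem UHM_three (n : ℕ) : UHM_u (3 * n) = UHM_u n := by
  unfold UHM_u
  rcases Nat.eq_zero_or_pos n with rfl | hn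
  · rfl
  congr 2
  ext d
  simp only [mem_filter, Nat.mem_divisors]
  constructor
  · rintro ⟨⟨h1, -⟩, h3⟩
    have h4 : d.Coprime 3 := h3.coprime_dvd_right (by norm_num)
    exact ⟨⟨h4.dvd_of_dvd_mul_left h1, hn.ne'⟩, h3⟩
  · rintro ⟨⟨h1, -⟩, h3⟩
    exact ⟨⟨h1.mul_left 3, by omega⟩, h3⟩

open Classical in
theorem UHM_cop (n : ℕ) (h2 : ¬ 2 ∣ n) (h3 : ¬ 3 ∣ n) :
    UHM_u n = if IsSquare n then 1 else 0 := by
  have hn : n ≠ 0 := by
    rintro rfl
    exact h2 (dvd_zero 2)
  rw [← LQ.PS1_card n hn]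
  unfold UHM_u
  rw [Finset.sum_const, nsmul_eq_mul, mul_one]
  congr 2
  refine filter_true_of_mem fun d hd => ?_
  have hd' := (Nat.mem_divisors.1 hd).1
  have e2 : d.Coprime 2 := by
    rw [Nat.coprime_comm]
    exact (Nat.Prime.coprime_iff_not_dvd Nat.prime_two).2 fun h => h2 (h.trans hd')
  have e3 : d.Coprime 3 := by
    rw [Nat.coprime_comm]
    exact (Nat.Prime.coprime_iff_not_dvd Nat.prime_three).2 fun h => h3 (h.trans hd')
  exact Nat.Coprime.mul_right e2 e3

open Classical in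
theorem UHM_odd (n : ℕ) : ¬ 2 ∣ n → UHM_u n = (if IsSquare n then 1 else 0) +
    (if 3 ∣ n ∧ IsSquare (n / 3) then 1 else 0) := by
  induction n using Nat.strong_induction_on with
  | _ n ih =>
    intro h2
    by_cases h3 : 3 ∣ n
    · obtain ⟨m, rfl⟩ := h3
      have hm : m ≠ 0 := by
        rintro rfl
        exact h2 (dvd_zero 2)
      rw [UHM_three, ih m (by omega) (fun h => h2 (h.mul_left 3)), add_comm]
      congr 1
      · have : (3 ∣ m ∧ IsSquare (m / 3)) ↔ IsSquare (3 * m) := by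
          constructor
          · rintro ⟨⟨k, rfl⟩, hk⟩
            rw [Nat.mul_div_cancel_left k (by norm_num)] at hk
            obtain ⟨r, rfl⟩ := hk
            exact ⟨3 * r, by ring⟩
          · rintro ⟨r, hr⟩
            have hr3 : 3 ∣ r := by
              have : 3 ∣ r * r := ⟨m, hr.symm⟩
              rcases (Nat.Prime.dvd_mul Nat.prime_three).1 this with h | h <;> exact h
            obtain ⟨s, rfl⟩ := hr3
            have hm2 : m = 3 * (s * s) := by nlinarith
            rw [hm2]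
            exact ⟨dvd_mul_right _ _, by rw [Nat.mul_div_cancel_left _ (by norm_num)]; exact ⟨s, rfl⟩⟩
        simp only [this]
      · rw [Nat.mul_div_cancel_left m (by norm_num)]
        simp only [dvd_mul_right, true_and]
    · rw [UHM_cop n h2 h3]
      simp only [h3, false_and, if_false, add_zero]

theorem UHM_UU : UU = im2 (PowerSeries.mk UHM_u) := by
  ext n
  rcases lt_or_ge n 0 with hn | hn
  · unfold UU
    rw [Pool.Agent.helper7.IG.ps_coeff_neg _ _ hn, Pool.Agent.helper7.IG.im2_coeff_neg _ _ hn]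
  · obtain ⟨m, rfl⟩ := Int.eq_ofNat_of_zero_le hn
    unfold UU
    rw [Pool.Agent.helper7.IG.ps_coeff_nat, Pool.Agent.helper7.IG.im2_coeff_nat, PowerSeries.coeff_mk]
    unfold UHM_u
    rw [map_natCast]

theorem UHM_sq : UU ^ 2 = im2 (PowerSeries.mk fun n => if 2 ∣ n then UHM_u (n / 2) else 0) := by
  rw [UHM_UU, ← map_pow]
  congr 1
  have h : PowerSeries.mk UHM_u ^ 2 = PowerSeries.expand 2 two_ne_zero (PowerSeries.mk UHM_u) :=
    Pool.Agent.helper12.PE.pow_eq_expand (PowerSeries.mk UHM_u) 1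
  rw [h]
  ext n
  rw [PowerSeries.coeff_expand, PowerSeries.coeff_mk, PowerSeries.coeff_mk]

open Classical in
theorem UHM_DD (n : ℕ) : DDk.coeff (n : ℤ) = if ¬ 2 ∣ n ∧ IsSquare n then 1 else 0 := by
  rw [Pool.Agent.helper7.IG.DDk_coeff]
  have : (∃ m : ℤ, m ^ 2 = (n : ℤ) ∧ Odd m) ↔ (¬ 2 ∣ n ∧ IsSquare n) := by
    constructor
    · rintro ⟨m, hm, ho⟩
      constructor
      · intro h
        have h1 : Odd (m ^ 2) := ho.pow
        rw [hm] at h1
        have h2 : (2 : ℤ) ∣ n := by exact_mod_cast h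
        rw [← Int.not_even_iff_odd] at h1
        exact h1 (even_iff_two_dvd.2 h2)
      · refine ⟨m.natAbs, ?_⟩
        have : ((m.natAbs * m.natAbs : ℕ) : ℤ) = n := by
          rw [← hm, Nat.cast_mul, Int.natAbs_mul_self' m]
          ring
        exact_mod_cast this.symm
    · rintro ⟨h, r, rfl⟩
      refine ⟨r, by push_cast; ring, ?_⟩
      have h2 : ¬ Even r := fun hr => h (hr.two_dvd.mul_right r)
      have := Nat.not_even_iff_odd.1 h2
      exact_mod_cast this
  simp only [this]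

theorem UHM : UHM_stmt := by
  classical
  unfold UHM_stmt
  rw [UHM_sq]
  ext n
  rw [UHM_UU, HahnSeries.coeff_add, HahnSeries.coeff_add]
  rcases lt_or_ge n 0 with hn | hn
  · rw [Pool.Agent.helper7.IG.im2_coeff_neg _ _ hn, Pool.Agent.helper7.IG.im2_coeff_neg _ _ hn,
      Pool.Agent.helper7.IG.sig_coeff (by norm_num)]
    have e1 : ∀ m : ℤ, m < 0 → DDk.coeff m = 0 := by
      intro m hm
      rw [Pool.Agent.helper7.IG.DDk_coeff, if_neg]
      rintro ⟨k, hk, -⟩
      nlinarith [sq_nonneg k]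
    rw [e1 n hn]
    split_ifs with h
    · rw [e1 (n / (3 : ℕ)) (by push_cast; omega), mul_zero]
    · rfl
  · obtain ⟨m, rfl⟩ := Int.eq_ofNat_of_zero_le hn
    rw [Pool.Agent.helper7.IG.im2_coeff_nat, Pool.Agent.helper7.IG.im2_coeff_nat,
      PowerSeries.coeff_mk, PowerSeries.coeff_mk, ← map_add,
      Pool.Agent.helper7.IG.sig_coeff (by norm_num), UHM_DD]
    have e3 : ((3 : ℕ) : ℤ) ∣ (m : ℤ) ↔ 3 ∣ m := Int.natCast_dvd_natCast
    have e4 : ((m : ℤ) / ((3 : ℕ) : ℤ)) = ((m / 3 : ℕ) : ℤ) := by push_cast; rfl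
    simp only [e3, e4, UHM_DD, one_zpow, Units.val_one, one_mul]
    by_cases h2 : 2 ∣ m
    · obtain ⟨k, rfl⟩ := h2
      rw [if_pos (dvd_mul_right _ _), Nat.mul_div_cancel_left k (by norm_num), UHM_even]
      have h0 : UHM_u k + UHM_u k = 0 := CharTwo.add_self_eq_zero _
      rw [h0, map_zero]
      have h5 : (2 : ℕ) ∣ 2 * k := dvd_mul_right _ _
      simp only [h5, not_true_eq_false, false_and, if_false, zero_add]
      split_ifs with h6 h7
      · exfalso
        apply h7.1
        obtain ⟨l, hl⟩ := h6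
        rw [hl, Nat.mul_div_cancel_left l (by norm_num)]
        omega
      · rfl
      · rfl
    · rw [if_neg h2, zero_add, UHM_odd m h2, map_add]
      have h5 : 3 ∣ m → ¬ 2 ∣ m / 3 := by
        rintro ⟨l, rfl⟩ h
        rw [Nat.mul_div_cancel_left l (by norm_num)] at h
        omega
      congr 1
      · simp only [h2, not_false_eq_true, true_and]
        split_ifs
        · rw [map_one]
        · rw [map_zero]
      · by_cases h6 : 3 ∣ m
        · simp only [h6, h5 h6, not_false_eq_true, true_and, if_true]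
          split_ifs
          · rw [map_one]
          · rw [map_zero]
        · simp only [h6, false_and, if_false, map_zero]

end Pool.Agent.QP
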